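import Pool.Agent.Helper29.MS.Fact

/-!
CR-1. Local bound for the derivative of a branch of the logarithm, with the poles made explicit
(the derivative of the identity behind `log_bound` of `Helper29/MS/LocLog.lean`, the notation is the same).

On `D := ball 0 r' ∩ {-c < z.re}` the function `L z - (ℓ z - ℓ 0) - ∑ log (z - ρ j) + ∑ log (ζ j z)`,
`ζ j z = (R² - conj (ρ j) z) / R`, is constant, so `L' = ℓ' + ∑ 1 / (z - ρ j) - ∑ (ζ j)' / ζ j`. Borel-Caratheodory on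
`ball 0 ((r' + r) / 2)` and Cauchy's estimate on the discs of radius `(r - r') / 4` bound `ℓ'` by `K Λ`, and
`‖(ζ j)' / ζ j‖ ≤ (r / R) / ((R² - r²) / R)`; `n ≤ Λ / log (R / r)`.
-/

set_option autoImplicit false

namespace Pool.Agent.Helper16.CR

open Complex Filter Topology MeasureTheory Set Metric
open Pool.Agent.Helper58.BSD Pool.Agent.Helper29.MS

open scoped ComplexConjugate

private theorem C1_re {r R : ℝ} (hr : 0 < r) (hrR : r < R) {ρ z : ℂ} (hρ : ‖ρ‖ ≤ r)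
    (hz : ‖z‖ < r) : 0 < (((R : ℂ) ^ 2 - conj ρ * z) / (R : ℂ)).re := by
  have hR : 0 < R := hr.trans hrR
  have h1 : (conj ρ * z).re ≤ r * r := by
    refine (Complex.re_le_norm _).trans ?_
    rw [norm_mul, Complex.norm_conj]
    exact mul_le_mul hρ hz.le (norm_nonneg _) hr.le
  have h2 : ((R : ℂ) ^ 2 - conj ρ * z).re = R ^ 2 - (conj ρ * z).re := by
    rw [Complex.sub_re, ← Complex.ofReal_pow, Complex.ofReal_re]
  rw [Complex.div_ofReal_re, h2]
  apply div_pos _ hR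
  nlinarith

private theorem C1_norm {r R : ℝ} (hr : 0 < r) (hrR : r < R) {ρ z : ℂ} (hρ : ‖ρ‖ ≤ r)
    (hz : ‖z‖ < r) : (R ^ 2 - r ^ 2) / R ≤ ‖((R : ℂ) ^ 2 - conj ρ * z) / (R : ℂ)‖ := by
  have hR : 0 < R := hr.trans hrR
  have h1 : ‖conj ρ * z‖ ≤ r ^ 2 := by
    rw [norm_mul, Complex.norm_conj, sq]
    exact mul_le_mul hρ hz.le (norm_nonneg _) hr.le
  have h2 : ‖(R : ℂ) ^ 2‖ = R ^ 2 := by
    rw [norm_pow, Complex.norm_real, Real.norm_of_nonneg hR.le]
  rw [norm_div, Complex.norm_real, Real.norm_of_nonneg hR.le]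
  apply div_le_div_of_nonneg_right _ hR.le
  have := norm_sub_norm_le ((R : ℂ) ^ 2) (conj ρ * z)
  rw [h2] at this
  linarith

private theorem C1_bc {r' r Λ : ℝ} (h0 : 0 < r') (h2 : r' < r) (hΛ : 0 ≤ Λ) {f : ℂ → ℂ}
    (hf : DifferentiableOn ℂ f (ball 0 r)) (hre : ∀ z ∈ ball (0 : ℂ) r, (f z).re ≤ Λ)
    (hf0 : f 0 = 0) {z : ℂ} (hz : z ∈ ball (0 : ℂ) r') : ‖f z‖ ≤ 2 * r' / (r - r') * Λ := by
  have hz' : ‖z‖ < r' := mem_ball_zero_iff.1 hz
  have hr : 0 < r := h0.trans h2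
  have hzr : z ∈ ball (0 : ℂ) r := mem_ball_zero_iff.2 (hz'.trans h2)
  have hd : 0 < r - r' := by linarith
  have key : ∀ ε : ℝ, 0 < ε → ‖f z‖ ≤ 2 * r' / (r - r') * (Λ + ε) := by
    intro ε hε
    have h3 := Complex.borelCaratheodory_zero (M := Λ + ε) (by linarith) hf
      (fun w hw => by
        show (f w).re ≤ Λ + ε
        have := hre w hw
        linarith) hr hzr hf0
    refine h3.trans ?_
    have h4 : 0 ≤ ‖z‖ := norm_nonneg z
    rw [div_mul_eq_mul_div]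
    apply div_le_div₀ (by positivity) _ hd (by linarith)
    nlinarith [mul_le_mul_of_nonneg_left hz'.le (show 0 ≤ Λ + ε by linarith)]
  have hk : 0 < 2 * r' / (r - r') := by positivity
  apply le_of_forall_pos_le_add
  intro ε hε
  have h5 := key (ε / (2 * r' / (r - r'))) (by positivity)
  rw [mul_add, mul_div_cancel₀ _ hk.ne'] at h5
  exact h5

/-- Borel-Caratheodory and Cauchy: a bound for the derivative in the smaller disc. -/
private theorem C1_deriv {r' r Λ : ℝ} (h0 : 0 < r') (h2 : r' < r) (hΛ : 0 ≤ Λ) {f : ℂ → ℂ}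
    (hf : DifferentiableOn ℂ f (ball 0 r)) (hre : ∀ z ∈ ball (0 : ℂ) r, (f z).re ≤ Λ)
    (hf0 : f 0 = 0) {z : ℂ} (hz : z ∈ ball (0 : ℂ) r') :
    ‖deriv f z‖ ≤ 2 * ((r' + r) / 2) / (r - (r' + r) / 2) / ((r - r') / 4) * Λ := by
  have hz' : ‖z‖ < r' := mem_ball_zero_iff.1 hz
  have hε : 0 < (r - r') / 4 := by linarith
  have hcl : closedBall z ((r - r') / 4) ⊆ ball (0 : ℂ) ((r' + r) / 2) := by
    intro w hw
    rw [mem_closedBall, dist_eq_norm] at hw
    rw [mem_ball_zero_iff]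
    have : ‖w‖ ≤ ‖w - z‖ + ‖z‖ := by
      have := norm_add_le (w - z) z
      rwa [sub_add_cancel] at this
    linarith
  have hsub : ball (0 : ℂ) ((r' + r) / 2) ⊆ ball 0 r := ball_subset_ball (by linarith)
  have hd : DiffContOnCl ℂ f (ball z ((r - r') / 4)) := by
    refine DifferentiableOn.diffContOnCl ?_
    refine hf.mono ?_
    exact (closure_ball_subset_closedBall.trans hcl).trans hsub
  have h3 := Complex.norm_deriv_le_of_forall_mem_sphere_norm_le hε hd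
    (C := 2 * ((r' + r) / 2) / (r - (r' + r) / 2) * Λ) (fun w hw =>
      C1_bc (by linarith) (by linarith) hΛ hf hre hf0 (hcl (sphere_subset_closedBall hw)))
  refine h3.trans (le_of_eq ?_)
  ring

/-- C1. as `log_bound` of MS/LocLog.lean, for the derivative -/
theorem log_deriv_bound {c r' r R : ℝ} (hc : 0 < c) (h1 : c < r') (h2 : r' < r) (h3 : r < R) :
    ∃ K : ℝ, 0 ≤ K ∧ ∀ (R' M : ℝ) (g L : ℂ → ℂ), R < R' → DifferentiableOn ℂ g (ball 0 R') →
      (∀ z ∈ closedBall (0 : ℂ) R, ‖g z‖ ≤ M) →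
      (∀ z ∈ ball (0 : ℂ) R', -c < z.re → g z ≠ 0) →
      DifferentiableOn ℂ L (ball 0 r' ∩ {z : ℂ | -c < z.re}) →
      (∀ z ∈ ball (0 : ℂ) r', -c < z.re → cexp (L z) = g z) →
      ∃ (n : ℕ) (ρ : Fin n → ℂ), (n : ℝ) ≤ K * Real.log (M / ‖g 0‖) ∧
        (∀ j, ‖ρ j‖ ≤ r ∧ (ρ j).re ≤ -c) ∧
        ∀ z ∈ ball (0 : ℂ) r', -c < z.re →
          ‖deriv L z‖ ≤ K * Real.log (M / ‖g 0‖) + ∑ j, ‖z - ρ j‖⁻¹ := by
  have hr'0 : 0 < r' := hc.trans h1
  have hr0 : 0 < r := hr'0.trans h2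
  have hR0 : 0 < R := hr0.trans h3
  have hlog : 0 < Real.log (R / r) := Real.log_pos ((one_lt_div hr0).2 h3)
  set K1 : ℝ := r / R / ((R ^ 2 - r ^ 2) / R) with hK1
  have hRr : 0 < (R ^ 2 - r ^ 2) / R := div_pos (by nlinarith) hR0
  have hK1n : 0 ≤ K1 := by positivity
  set K2 : ℝ := 2 * ((r' + r) / 2) / (r - (r' + r) / 2) / ((r - r') / 4) with hK2
  have hK2n : 0 ≤ K2 := by
    have e1 : 0 < r - (r' + r) / 2 := by linarith
    have e2 : 0 < (r - r') / 4 := by linarith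
    positivity
  refine ⟨K2 + (K1 + 1) / Real.log (R / r),
    add_nonneg hK2n (div_nonneg (by linarith) hlog.le), ?_⟩
  intro R' M g L hRR hg hM hne hL hexp
  have h00 : (0 : ℂ) ∈ ball (0 : ℂ) R' := mem_ball_self (hR0.trans hRR)
  have hg0 : g 0 ≠ 0 := hne 0 h00 (by rw [Complex.zero_re]; linarith)
  have hg0p : 0 < ‖g 0‖ := norm_pos_iff.2 hg0
  obtain ⟨n, ρ, q, hρ, hq, hgq, hq0, hb, hn⟩ := exists_factor hr0 h3 hRR hg hM hg0
  set Λ : ℝ := Real.log (M / ‖g 0‖) with hΛ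
  have hM0 : ‖g 0‖ ≤ M := hM 0 (mem_closedBall_self hR0.le)
  have hΛ0 : 0 ≤ Λ := Real.log_nonneg ((one_le_div hg0p).2 hM0)
  have hρc : ∀ j, (ρ j).re ≤ -c := by
    intro j
    by_contra hcon
    push Not at hcon
    have hj : ρ j ∈ ball (0 : ℂ) R' := mem_ball_zero_iff.2 (((hρ j).trans_lt h3).trans hRR)
    apply hne (ρ j) hj hcon
    rw [hgq _ hj]
    have : ∏ i, (ρ j - ρ i) = 0 := Finset.prod_eq_zero (Finset.mem_univ j) (sub_self _)
    rw [this, mul_zero]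
  have hnΛ : (n : ℝ) ≤ Λ / Real.log (R / r) := (le_div_iff₀ hlog).2 hn
  have hsub : ball (0 : ℂ) r ⊆ closedBall (0 : ℂ) R := fun z hz =>
    mem_closedBall_zero_iff.2 ((mem_ball_zero_iff.1 hz).le.trans h3.le)
  have hsub2 : ball (0 : ℂ) r ⊆ ball (0 : ℂ) R' := ball_subset_ball (by linarith)
  set ζ : Fin n → ℂ → ℂ := fun j z => ((R : ℂ) ^ 2 - conj (ρ j) * z) / (R : ℂ) with hζ
  have hζre : ∀ j, ∀ z ∈ ball (0 : ℂ) r, 0 < (ζ j z).re := fun j z hz =>
    C1_re hr0 h3 (hρ j) (mem_ball_zero_iff.1 hz)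
  have hζne : ∀ j, ∀ z ∈ ball (0 : ℂ) r, ζ j z ≠ 0 := by
    intro j z hz h0
    have := hζre j z hz
    rw [h0, Complex.zero_re] at this
    exact lt_irrefl _ this
  have hζd : ∀ j, Differentiable ℂ (ζ j) := by
    intro j
    simp only [hζ]
    fun_prop
  have hζD : ∀ j z, HasDerivAt (ζ j) (-conj (ρ j) / (R : ℂ)) z := by
    intro j z
    have e1 : HasDerivAt (fun z : ℂ => (R : ℂ) ^ 2 - conj (ρ j) * z) (-(conj (ρ j) * 1)) z :=
      ((hasDerivAt_id z).const_mul (conj (ρ j))).const_sub ((R : ℂ) ^ 2)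
    have e2 := e1.div_const (R : ℂ)
    rwa [mul_one] at e2
  set b : ℂ → ℂ := fun z => q z * ∏ j, ζ j z with hbdef
  have hbd : DifferentiableOn ℂ b (ball 0 r) := by
    refine (hq.mono hsub2).mul ?_
    refine Differentiable.differentiableOn ?_
    simp only [hζ]
    fun_prop
  have hbne : ∀ z ∈ ball (0 : ℂ) r, b z ≠ 0 := by
    intro z hz
    refine mul_ne_zero (hq0 z (mem_closedBall_zero_iff.2 (mem_ball_zero_iff.1 hz).le)) ?_
    exact Finset.prod_ne_zero_iff.2 fun j _ => hζne j z hz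
  obtain ⟨ℓ, hℓ, hℓe⟩ := exists_log isOpen_ball (convex_ball (0 : ℂ) r)
    ⟨0, mem_ball_self hr0⟩ hbd hbne
  have h0r : (0 : ℂ) ∈ ball (0 : ℂ) r := mem_ball_self hr0
  -- the value of `b` at the centre
  have hb0 : ‖g 0‖ ≤ ‖b 0‖ := by
    rw [hgq 0 h00, hbdef, norm_mul, norm_mul, norm_prod, norm_prod]
    refine mul_le_mul_of_nonneg_left ?_ (norm_nonneg _)
    refine Finset.prod_le_prod (fun j _ => norm_nonneg _) fun j _ => ?_
    have hR1 : (R : ℂ) ≠ 0 := by exact_mod_cast hR0.ne'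
    have e1 : ζ j 0 = (R : ℂ) := by
      simp only [hζ]
      rw [mul_zero, sub_zero, sq, mul_div_assoc, div_self hR1, mul_one]
    rw [e1, zero_sub, norm_neg, Complex.norm_real, Real.norm_of_nonneg hR0.le]
    exact (hρ j).trans h3.le
  have hre : ∀ z, z ∈ ball (0 : ℂ) r → (ℓ z).re = Real.log ‖b z‖ := by
    intro z hz
    rw [← hℓe z hz, Complex.norm_exp, Real.log_exp]
  have hfre : ∀ z ∈ ball (0 : ℂ) r, ((fun z => ℓ z - ℓ 0) z).re ≤ Λ := by
    intro z hz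
    show (ℓ z - ℓ 0).re ≤ Λ
    rw [Complex.sub_re, hre z hz, hre 0 h0r, hΛ]
    have h4 : ‖b z‖ ≤ M := hb z (hsub hz)
    have h5 : 0 < ‖b z‖ := norm_pos_iff.2 (hbne z hz)
    have h6 := Real.log_le_log h5 h4
    have h7 := Real.log_le_log hg0p hb0
    rw [Real.log_div (hg0p.trans_le hM0).ne' hg0p.ne']
    linarith
  have hfd : DifferentiableOn ℂ (fun z => ℓ z - ℓ 0) (ball 0 r) := hℓ.sub_const _
  have hfb : ∀ z ∈ ball (0 : ℂ) r', ‖deriv (fun z => ℓ z - ℓ 0) z‖ ≤ K2 * Λ := fun z hz =>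
    C1_deriv hr'0 h2 hΛ0 hfd hfre (sub_self _) hz
  -- the domain
  set D : Set ℂ := ball (0 : ℂ) r' ∩ {z : ℂ | -c < z.re} with hD
  have hDr : D ⊆ ball (0 : ℂ) r := fun z hz => ball_subset_ball h2.le hz.1
  have hDo : IsOpen D := isOpen_ball.inter (isOpen_lt continuous_const Complex.continuous_re)
  have hDc : Convex ℝ D := (convex_ball (0 : ℂ) r').inter (convex_halfSpace_re_gt (-c))
  have hD0 : (0 : ℂ) ∈ D := ⟨mem_ball_self hr'0, by
    show -c < (0 : ℂ).re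
    rw [Complex.zero_re]
    linarith⟩
  have hzρ : ∀ z ∈ D, ∀ j, 0 < (z - ρ j).re := by
    intro z hz j
    rw [Complex.sub_re]
    have h4 : -c < z.re := hz.2
    have := hρc j
    linarith
  have hzne : ∀ z ∈ D, ∀ j, z - ρ j ≠ 0 := by
    intro z hz j h0
    have := hzρ z hz j
    rw [h0, Complex.zero_re] at this
    exact lt_irrefl _ this
  set H : ℂ → ℂ := fun z => L z - (ℓ z - ℓ 0) - ∑ j, Complex.log (z - ρ j) +
    ∑ j, Complex.log (ζ j z) with hH
  have hHd : DifferentiableOn ℂ H D := by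
    refine ((hL.sub (hfd.mono hDr)).sub ?_).add ?_
    · refine DifferentiableOn.fun_sum fun j _ => ?_
      intro z hz
      refine DifferentiableAt.differentiableWithinAt ?_
      exact (differentiableAt_id.sub_const _).clog (Or.inl (hzρ z hz j))
    · refine DifferentiableOn.fun_sum fun j _ => ?_
      intro z hz
      refine DifferentiableAt.differentiableWithinAt ?_
      exact (hζd j z).clog (Or.inl (hζre j z (hDr hz)))
  have hHe : ∀ z ∈ D, cexp (H z) = cexp (ℓ 0) := by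
    intro z hz
    have hzr := hDr hz
    have e1 : cexp (∑ j, Complex.log (z - ρ j)) = ∏ j, (z - ρ j) := by
      rw [Complex.exp_sum]
      exact Finset.prod_congr rfl fun j _ => Complex.exp_log (hzne z hz j)
    have e2 : cexp (∑ j, Complex.log (ζ j z)) = ∏ j, ζ j z := by
      rw [Complex.exp_sum]
      exact Finset.prod_congr rfl fun j _ => Complex.exp_log (hζne j z hzr)
    have e3 : cexp (L z) = g z := hexp z hz.1 hz.2
    have e4 : cexp (ℓ z) = b z := hℓe z hzr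
    have e5 : g z = q z * ∏ j, (z - ρ j) := hgq z (hsub2 hzr)
    have n1 : ∏ j, (z - ρ j) ≠ 0 := Finset.prod_ne_zero_iff.2 fun j _ => hzne z hz j
    have n2 : ∏ j, ζ j z ≠ 0 := Finset.prod_ne_zero_iff.2 fun j _ => hζne j z hzr
    have n3 : q z ≠ 0 := hq0 z (mem_closedBall_zero_iff.2 (mem_ball_zero_iff.1 hzr).le)
    simp only [hH]
    rw [Complex.exp_add, Complex.exp_sub, Complex.exp_sub, Complex.exp_sub, e1, e2, e3, e4, e5]
    simp only [hbdef]
    have n4 := Complex.exp_ne_zero (ℓ 0)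
    field_simp
  refine ⟨n, ρ, ?_, fun j => ⟨hρ j, hρc j⟩, ?_⟩
  · refine hnΛ.trans ?_
    have h4 : 0 ≤ K2 * Λ := mul_nonneg hK2n hΛ0
    have h5 : 0 ≤ K1 * (Λ / Real.log (R / r)) := mul_nonneg hK1n (div_nonneg hΛ0 hlog.le)
    have h6 : (K2 + (K1 + 1) / Real.log (R / r)) * Λ =
        K2 * Λ + K1 * (Λ / Real.log (R / r)) + Λ / Real.log (R / r) := by
      ring
    rw [h6]
    linarith
  · intro z hz hzc
    have hzD : z ∈ D := ⟨hz, hzc⟩
    have hzr : z ∈ ball (0 : ℂ) r := hDr hzD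
    -- `L` is, near `z`, equal to an explicit function
    have h5 : L =ᶠ[𝓝 z] fun w => (ℓ w - ℓ 0) + ∑ j, Complex.log (w - ρ j) -
        ∑ j, Complex.log (ζ j w) + H 0 := by
      filter_upwards [hDo.mem_nhds hzD] with w hw
      have h4 : H w = H 0 := const_of_exp hDo hDc.isPreconnected hHd hHe hw hD0
      rw [← h4]
      simp only [hH]
      ring
    have d1 : HasDerivAt (fun w => ℓ w - ℓ 0) (deriv (fun w => ℓ w - ℓ 0) z) z :=
      (hfd.differentiableAt (isOpen_ball.mem_nhds hzr)).hasDerivAt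
    have d2 : HasDerivAt (fun w => ∑ j, Complex.log (w - ρ j)) (∑ j, 1 / (z - ρ j)) z := by
      refine HasDerivAt.fun_sum fun j _ => ?_
      exact ((hasDerivAt_id z).sub_const (ρ j)).clog (Or.inl (hzρ z hzD j))
    have d3 : HasDerivAt (fun w => ∑ j, Complex.log (ζ j w))
        (∑ j, (-conj (ρ j) / (R : ℂ)) / ζ j z) z := by
      refine HasDerivAt.fun_sum fun j _ => ?_
      exact (hζD j z).clog (Or.inl (hζre j z hzr))
    have d4 := (((d1.add d2).sub d3).add_const (H 0)).congr_of_eventuallyEq h5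
    rw [d4.deriv]
    have h6 : ∀ j, ‖(-conj (ρ j) / (R : ℂ)) / ζ j z‖ ≤ K1 := by
      intro j
      rw [norm_div, norm_div, norm_neg, Complex.norm_conj, Complex.norm_real,
        Real.norm_of_nonneg hR0.le, hK1]
      refine div_le_div₀ (by positivity) (div_le_div_of_nonneg_right (hρ j) hR0.le) hRr ?_
      exact C1_norm hr0 h3 (hρ j) (mem_ball_zero_iff.1 hzr)
    have h7 : ‖∑ j, (-conj (ρ j) / (R : ℂ)) / ζ j z‖ ≤ n * K1 := by
      refine (norm_sum_le _ _).trans ((Finset.sum_le_sum fun j _ => h6 j).trans ?_)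
      rw [Finset.sum_const, Finset.card_univ, Fintype.card_fin, nsmul_eq_mul]
    have h8 : ‖∑ j, 1 / (z - ρ j)‖ ≤ ∑ j, ‖z - ρ j‖⁻¹ := by
      refine (norm_sum_le _ _).trans (le_of_eq (Finset.sum_congr rfl fun j _ => ?_))
      rw [one_div, norm_inv]
    have h9 : (n : ℝ) * K1 ≤ K1 / Real.log (R / r) * Λ := by
      have := mul_le_mul_of_nonneg_right hnΛ hK1n
      calc (n : ℝ) * K1 ≤ Λ / Real.log (R / r) * K1 := this
        _ = K1 / Real.log (R / r) * Λ := by ring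
    have h10 : 0 ≤ Λ / Real.log (R / r) := div_nonneg hΛ0 hlog.le
    have h11 : (K2 + (K1 + 1) / Real.log (R / r)) * Λ =
        K2 * Λ + K1 / Real.log (R / r) * Λ + Λ / Real.log (R / r) := by
      ring
    have h12 := hfb z hz
    rw [h11]
    have t1 := norm_sub_le (deriv (fun w => ℓ w - ℓ 0) z + ∑ j, 1 / (z - ρ j))
      (∑ j, (-conj (ρ j) / (R : ℂ)) / ζ j z)
    have t2 := norm_add_le (deriv (fun w => ℓ w - ℓ 0) z) (∑ j, 1 / (z - ρ j))
    linarith

end Pool.Agent.Helper16.CR
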