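import Pool.Agent.Helper8.CR.K5core
import Pool.Agent.Helper29.MS.H2
import Pool.Agent.Helper16.OM.Count

/-!
CR-K5: the exact mean square of `V'`, `V = VV L (kap G)`. On a window `|τ - γ| ≤ ε` around a zero `i γ ≠ 0` of `G` we have
`V' = - L' / w - V / w` and `∫ ‖V‖²` is bounded, so the window gives the same limit as `‖L'‖² / ‖w‖²` (K2). The rest is
`ms_core` with K3 (tails), K4 (compact sets without zeros) and C6 (bound).
-/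

set_option autoImplicit false

namespace Pool.Agent.Helper8.CR

open Complex Filter Topology MeasureTheory Set Metric
open Pool.Agent.Helper13.Bsd Pool.Agent.Helper7.GW Pool.Agent.Helper58.BSD Pool.Agent.Helper29.MS
open Pool.Agent.Helper16.OM (Fac)

variable {v : ℝ → ℝ} {G : ℂ → ℂ} {A a η B c : ℝ} {k : ℕ}

theorem diffAt_L {L : ℂ → ℂ} (hL : Branch v G a L) {w : ℂ} (hw : 0 < w.re) :
    DifferentiableAt ℂ L w :=
  hL.diff.differentiableAt ((isOpen_lt continuous_const Complex.continuous_re).mem_nhds hw)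

theorem deriv_VV {L : ℂ → ℂ} (hL : Branch v G a L) (κ : ℝ) {w : ℂ} (hw : 0 < w.re) :
    deriv (VV L κ) w = -(deriv L w / w) + -(VV L κ w / w) := by
  have hw0 : w ≠ 0 := by
    rintro rfl
    rw [Complex.zero_re] at hw
    exact lt_irrefl _ hw
  have h1 : HasDerivAt L (deriv L w) w := (diffAt_L hL hw).hasDerivAt
  have h2 : HasDerivAt (VV L κ) ((-(deriv L w) * w - (-(L w + (κ : ℂ))) * 1) / w ^ 2) w :=
    ((h1.add_const (κ : ℂ)).neg).div (hasDerivAt_id w) hw0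
  rw [h2.deriv, VV]
  field_simp
  ring

theorem cont_line (σ : ℝ) : Continuous (fun τ : ℝ => (σ : ℂ) + (τ : ℂ) * I) := by fun_prop

theorem line_re (σ τ : ℝ) : ((σ : ℂ) + (τ : ℂ) * I).re = σ := by simp

theorem line_im (σ τ : ℝ) : ((σ : ℂ) + (τ : ℂ) * I).im = τ := by simp

theorem line_ne {σ : ℝ} (hσ : 0 < σ) (τ : ℝ) : (σ : ℂ) + (τ : ℂ) * I ≠ 0 := by
  intro h
  have := line_re σ τ
  rw [h, Complex.zero_re] at this
  exact hσ.ne this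

theorem cont_L {L : ℂ → ℂ} (hL : Branch v G a L) {σ : ℝ} (hσ : 0 < σ) :
    Continuous (fun τ : ℝ => L ((σ : ℂ) + (τ : ℂ) * I)) := by
  refine hL.diff.continuousOn.comp_continuous (cont_line σ) fun τ => ?_
  show 0 < ((σ : ℂ) + (τ : ℂ) * I).re
  rw [line_re]
  exact hσ

theorem cont_L' {L : ℂ → ℂ} (hL : Branch v G a L) {σ : ℝ} (hσ : 0 < σ) :
    Continuous (fun τ : ℝ => deriv L ((σ : ℂ) + (τ : ℂ) * I)) := by
  have ho : IsOpen {w : ℂ | 0 < w.re} := isOpen_lt continuous_const Complex.continuous_re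
  refine (hL.diff.deriv ho).continuousOn.comp_continuous (cont_line σ) fun τ => ?_
  show 0 < ((σ : ℂ) + (τ : ℂ) * I).re
  rw [line_re]
  exact hσ

theorem cont_V {L : ℂ → ℂ} (hL : Branch v G a L) (κ : ℝ) {σ : ℝ} (hσ : 0 < σ) :
    Continuous (fun τ : ℝ => VV L κ ((σ : ℂ) + (τ : ℂ) * I)) := by
  unfold VV
  exact ((cont_L hL hσ).add continuous_const).neg.div (cont_line σ) (line_ne hσ)

theorem window_V (hF : Frame v G A a η B c k) {L : ℂ → ℂ} (hL : Branch v G a L) (γ : ℝ)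
    (hγ : γ ≠ 0) (m : ℕ) (ε : ℝ) (_hε0 : 0 < ε) (hε : ε ≤ |γ| / 2)
    (hw : Tendsto (fun σ : ℝ => σ * ∫ τ in Icc (γ - ε) (γ + ε),
        ‖deriv L ((σ : ℂ) + (τ : ℂ) * I)‖ ^ 2 * (‖(σ : ℂ) + (τ : ℂ) * I‖ ^ 2)⁻¹) (𝓝[>] 0)
        (𝓝 ((m : ℝ) ^ 2 * (Real.pi / γ ^ 2)))) :
    Tendsto (fun σ : ℝ => σ * ∫ τ in Icc (γ - ε) (γ + ε),
      ‖deriv (VV L (kap G)) ((σ : ℂ) + (τ : ℂ) * I)‖ ^ 2) (𝓝[>] 0)
      (𝓝 (Real.pi * ((m : ℝ) ^ 2 / γ ^ 2))) := by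
  obtain ⟨K, hK, hK2⟩ := h2_bound hF hL
  have hγ0 : 0 < |γ| := abs_pos.2 hγ
  have e0 : (m : ℝ) ^ 2 * (Real.pi / γ ^ 2) = Real.pi * ((m : ℝ) ^ 2 / γ ^ 2) := by ring
  rw [e0] at hw
  have hfar : ∀ τ ∈ Icc (γ - ε) (γ + ε), |γ| / 2 ≤ |τ| := by
    intro τ hτ
    have h1 : |γ - τ| ≤ ε := by
      rw [abs_le]
      constructor <;> linarith [hτ.1, hτ.2]
    have h2 := abs_sub_abs_le_abs_sub γ τ
    linarith
  refine cross (r := fun σ => σ * ∫ τ in Icc (γ - ε) (γ + ε),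
    ‖VV L (kap G) ((σ : ℂ) + (τ : ℂ) * I) / ((σ : ℂ) + (τ : ℂ) * I)‖ ^ 2) hw ?_ ?_
  · -- the error tends to zero
    have h1 : Tendsto (fun σ : ℝ => σ * (4 / γ ^ 2 * K)) (𝓝[>] 0) (𝓝 (0 * (4 / γ ^ 2 * K))) :=
      (tendsto_id.mono_left nhdsWithin_le_nhds).mul_const _
    rw [zero_mul] at h1
    refine squeeze_zero' ?_ ?_ h1
    · filter_upwards [self_mem_nhdsWithin] with σ hσ
      exact mul_nonneg (le_of_lt hσ) (integral_nonneg fun τ => by positivity)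
    · filter_upwards [Ioc_mem_nhdsGT one_pos] with σ hσ
      refine mul_le_mul_of_nonneg_left ?_ hσ.1.le
      obtain ⟨hi, hb⟩ := hK2 σ hσ.1 hσ.2
      have hc : Continuous (fun τ : ℝ =>
          ‖VV L (kap G) ((σ : ℂ) + (τ : ℂ) * I) / ((σ : ℂ) + (τ : ℂ) * I)‖ ^ 2) :=
        (((cont_V hL (kap G) hσ.1).div (cont_line σ) (line_ne hσ.1)).norm).pow 2
      have h2 : ∀ τ ∈ Icc (γ - ε) (γ + ε),
          ‖VV L (kap G) ((σ : ℂ) + (τ : ℂ) * I) / ((σ : ℂ) + (τ : ℂ) * I)‖ ^ 2 ≤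
            4 / γ ^ 2 * ‖VV L (kap G) ((σ : ℂ) + (τ : ℂ) * I)‖ ^ 2 := by
        intro τ hτ
        have h3 : |γ| / 2 ≤ ‖(σ : ℂ) + (τ : ℂ) * I‖ := by
          have := Complex.abs_im_le_norm ((σ : ℂ) + (τ : ℂ) * I)
          rw [line_im] at this
          exact (hfar τ hτ).trans this
        have h4 : γ ^ 2 / 4 ≤ ‖(σ : ℂ) + (τ : ℂ) * I‖ ^ 2 := by
          have := pow_le_pow_left₀ (by positivity) h3 2
          rw [div_pow, sq_abs] at this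
          linarith
        have hγ2 : 0 < γ ^ 2 := by positivity
        rw [norm_div, div_pow, div_le_iff₀ (by linarith)]
        have h5 : 1 ≤ 4 / γ ^ 2 * ‖(σ : ℂ) + (τ : ℂ) * I‖ ^ 2 := by
          rw [div_mul_eq_mul_div, le_div_iff₀ hγ2]
          linarith
        nlinarith [sq_nonneg ‖VV L (kap G) ((σ : ℂ) + (τ : ℂ) * I)‖]
      calc ∫ τ in Icc (γ - ε) (γ + ε),
            ‖VV L (kap G) ((σ : ℂ) + (τ : ℂ) * I) / ((σ : ℂ) + (τ : ℂ) * I)‖ ^ 2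
          ≤ ∫ τ in Icc (γ - ε) (γ + ε),
            4 / γ ^ 2 * ‖VV L (kap G) ((σ : ℂ) + (τ : ℂ) * I)‖ ^ 2 :=
            setIntegral_mono_on hc.integrableOn_Icc (hi.integrableOn.const_mul _)
              measurableSet_Icc h2
        _ = 4 / γ ^ 2 * ∫ τ in Icc (γ - ε) (γ + ε),
            ‖VV L (kap G) ((σ : ℂ) + (τ : ℂ) * I)‖ ^ 2 := integral_const_mul _ _
        _ ≤ 4 / γ ^ 2 * K := by
            refine mul_le_mul_of_nonneg_left ?_ (by positivity)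
            exact (setIntegral_le_integral hi (Eventually.of_forall fun τ => sq_nonneg _)).trans hb
  · filter_upwards [Ioc_mem_nhdsGT one_pos] with σ hσ
    have hσ0 := hσ.1
    have hcV : Continuous (fun τ : ℝ =>
        VV L (kap G) ((σ : ℂ) + (τ : ℂ) * I) / ((σ : ℂ) + (τ : ℂ) * I)) :=
      (cont_V hL (kap G) hσ0).div (cont_line σ) (line_ne hσ0)
    have hcL : Continuous (fun τ : ℝ =>
        deriv L ((σ : ℂ) + (τ : ℂ) * I) / ((σ : ℂ) + (τ : ℂ) * I)) :=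
      (cont_L' hL hσ0).div (cont_line σ) (line_ne hσ0)
    have hd : ∀ τ : ℝ, deriv (VV L (kap G)) ((σ : ℂ) + (τ : ℂ) * I) =
        -(deriv L ((σ : ℂ) + (τ : ℂ) * I) / ((σ : ℂ) + (τ : ℂ) * I)) +
        -(VV L (kap G) ((σ : ℂ) + (τ : ℂ) * I) / ((σ : ℂ) + (τ : ℂ) * I)) := fun τ =>
      deriv_VV hL (kap G) (by rw [line_re]; exact hσ0)
    have hLn : ∀ τ : ℝ, ‖deriv L ((σ : ℂ) + (τ : ℂ) * I)‖ ^ 2 *
        (‖(σ : ℂ) + (τ : ℂ) * I‖ ^ 2)⁻¹ =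
        ‖deriv L ((σ : ℂ) + (τ : ℂ) * I) / ((σ : ℂ) + (τ : ℂ) * I)‖ ^ 2 := fun τ => by
      rw [norm_div, div_pow, div_eq_mul_inv]
    simp_rw [hLn, hd]
    have i1 : IntegrableOn (fun τ : ℝ =>
        ‖deriv L ((σ : ℂ) + (τ : ℂ) * I) / ((σ : ℂ) + (τ : ℂ) * I)‖ ^ 2)
        (Icc (γ - ε) (γ + ε)) := (hcL.norm.pow 2).integrableOn_Icc
    have i2 : IntegrableOn (fun τ : ℝ =>
        ‖VV L (kap G) ((σ : ℂ) + (τ : ℂ) * I) / ((σ : ℂ) + (τ : ℂ) * I)‖ ^ 2)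
        (Icc (γ - ε) (γ + ε)) := (hcV.norm.pow 2).integrableOn_Icc
    have i3 : IntegrableOn (fun τ : ℝ =>
        ‖-(deriv L ((σ : ℂ) + (τ : ℂ) * I) / ((σ : ℂ) + (τ : ℂ) * I)) +
        -(VV L (kap G) ((σ : ℂ) + (τ : ℂ) * I) / ((σ : ℂ) + (τ : ℂ) * I))‖ ^ 2)
        (Icc (γ - ε) (γ + ε)) := ((hcL.neg.add hcV.neg).norm.pow 2).integrableOn_Icc
    refine ⟨mul_nonneg hσ0.le (integral_nonneg fun τ => sq_nonneg _),
      mul_nonneg hσ0.le (integral_nonneg fun τ => sq_nonneg _),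
      mul_nonneg hσ0.le (integral_nonneg fun τ => sq_nonneg _), fun ε' hε' => ⟨?_, ?_⟩⟩
    · have h1 := setIntegral_mono_on (μ := volume) i3
        ((i1.const_mul (1 + ε')).add (i2.const_mul (1 + 1 / ε'))) measurableSet_Icc
        (fun τ _ => by
          have := sq_split (-(deriv L ((σ : ℂ) + (τ : ℂ) * I) / ((σ : ℂ) + (τ : ℂ) * I)))
            (-(VV L (kap G) ((σ : ℂ) + (τ : ℂ) * I) / ((σ : ℂ) + (τ : ℂ) * I))) ε' hε'
          rw [norm_neg, norm_neg] at this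
          exact this)
      have h2 := integral_add (μ := volume.restrict (Icc (γ - ε) (γ + ε)))
        (i1.const_mul (1 + ε')) (i2.const_mul (1 + 1 / ε'))
      have h3 := integral_const_mul (μ := volume.restrict (Icc (γ - ε) (γ + ε))) (1 + ε')
        (fun τ : ℝ => ‖deriv L ((σ : ℂ) + (τ : ℂ) * I) / ((σ : ℂ) + (τ : ℂ) * I)‖ ^ 2)
      have h4 := integral_const_mul (μ := volume.restrict (Icc (γ - ε) (γ + ε))) (1 + 1 / ε')
        (fun τ : ℝ => ‖VV L (kap G) ((σ : ℂ) + (τ : ℂ) * I) / ((σ : ℂ) + (τ : ℂ) * I)‖ ^ 2)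
      rw [h3, h4] at h2
      have h5 := mul_le_mul_of_nonneg_left (h1.trans (le_of_eq h2)) hσ0.le
      refine h5.trans (le_of_eq ?_)
      ring
    · have h1 := setIntegral_mono_on (μ := volume) i1
        ((i3.const_mul (1 + ε')).add (i2.const_mul (1 + 1 / ε'))) measurableSet_Icc
        (fun τ _ => by
          have := sq_split (-(deriv L ((σ : ℂ) + (τ : ℂ) * I) / ((σ : ℂ) + (τ : ℂ) * I)) +
            -(VV L (kap G) ((σ : ℂ) + (τ : ℂ) * I) / ((σ : ℂ) + (τ : ℂ) * I)))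
            (VV L (kap G) ((σ : ℂ) + (τ : ℂ) * I) / ((σ : ℂ) + (τ : ℂ) * I)) ε' hε'
          rw [neg_add_cancel_right, norm_neg] at this
          exact this)
      have h2 := integral_add (μ := volume.restrict (Icc (γ - ε) (γ + ε)))
        (i3.const_mul (1 + ε')) (i2.const_mul (1 + 1 / ε'))
      have h3 := integral_const_mul (μ := volume.restrict (Icc (γ - ε) (γ + ε))) (1 + ε')
        (fun τ : ℝ => ‖-(deriv L ((σ : ℂ) + (τ : ℂ) * I) / ((σ : ℂ) + (τ : ℂ) * I)) +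
          -(VV L (kap G) ((σ : ℂ) + (τ : ℂ) * I) / ((σ : ℂ) + (τ : ℂ) * I))‖ ^ 2)
      have h4 := integral_const_mul (μ := volume.restrict (Icc (γ - ε) (γ + ε))) (1 + 1 / ε')
        (fun τ : ℝ => ‖VV L (kap G) ((σ : ℂ) + (τ : ℂ) * I) / ((σ : ℂ) + (τ : ℂ) * I)‖ ^ 2)
      rw [h3, h4] at h2
      have h5 := mul_le_mul_of_nonneg_left (h1.trans (le_of_eq h2)) hσ0.le
      refine h5.trans (le_of_eq ?_)
      ring

/-- K5 from the conclusions of K2 (`window`), K3 (`h2_tail`), K4 (`middle`) and C6 (`h2_deriv`). -/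
theorem mean_sq_core (hF : Frame v G A a η B c k) {L : ℂ → ℂ} (hL : Branch v G a L) (mm : ℝ → ℕ)
    (hmm : Fac G mm)
    (hK2 : ∀ γ : ℝ, γ ≠ 0 → ∀ (m : ℕ) (g : ℂ → ℂ), AnalyticAt ℂ g (γ * I) → g (γ * I) ≠ 0 →
      (∀ᶠ w in 𝓝 (γ * I : ℂ), G w = (w - γ * I) ^ m * g w) →
      ∃ ε0 : ℝ, 0 < ε0 ∧ ∀ ε : ℝ, 0 < ε → ε ≤ ε0 →
        Tendsto (fun σ : ℝ => σ * ∫ τ in Icc (γ - ε) (γ + ε),
          ‖deriv L ((σ : ℂ) + (τ : ℂ) * I)‖ ^ 2 * (‖(σ : ℂ) + (τ : ℂ) * I‖ ^ 2)⁻¹) (𝓝[>] 0)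
          (𝓝 ((m : ℝ) ^ 2 * (Real.pi / γ ^ 2))))
    (hK3 : ∀ e : ℝ, 0 < e → ∃ R : ℝ, 0 < R ∧ ∀ σ : ℝ, 0 < σ → σ ≤ 1 →
      ∫ τ in {τ : ℝ | R < |τ|}, ‖deriv (VV L (kap G)) ((σ : ℂ) + (τ : ℂ) * I)‖ ^ 2 ≤ e / σ)
    (hK4 : ∀ S : Set ℝ, IsCompact S → (∀ y ∈ S, G ((y : ℂ) * I) ≠ 0) →
      ∃ σ0 C : ℝ, 0 < σ0 ∧ 0 ≤ C ∧ ∀ σ : ℝ, 0 < σ → σ ≤ σ0 → ∀ y ∈ S,
        ‖deriv (VV L (kap G)) ((σ : ℂ) + (y : ℂ) * I)‖ ≤ C)
    (hC6 : ∃ K : ℝ, 0 ≤ K ∧ ∀ σ : ℝ, 0 < σ → σ ≤ 1 →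
      Integrable (fun τ : ℝ => ‖deriv (VV L (kap G)) ((σ : ℂ) + (τ : ℂ) * I)‖ ^ 2) ∧
      ∫ τ : ℝ, ‖deriv (VV L (kap G)) ((σ : ℂ) + (τ : ℂ) * I)‖ ^ 2 ≤ K / σ) :
    Summable (fun γ : ℝ => if γ = 0 then 0 else (mm γ : ℝ) ^ 2 / γ ^ 2) ∧
    Tendsto (fun σ : ℝ => σ * ∫ τ : ℝ, ‖deriv (VV L (kap G)) ((σ : ℂ) + (τ : ℂ) * I)‖ ^ 2)
      (𝓝[>] 0)
      (𝓝 (Real.pi * ∑' γ : ℝ, if γ = 0 then 0 else (mm γ : ℝ) ^ 2 / γ ^ 2)) := by
  obtain ⟨K, hK, hC6'⟩ := hC6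
  have hGc : ContinuousAt G 0 := by
    refine (hF.setup.diff.differentiableAt
      ((isOpen_lt continuous_const Complex.continuous_re).mem_nhds ?_)).continuousAt
    show -η < (0 : ℂ).re
    rw [Complex.zero_re]
    linarith [hF.setup.hη]
  refine ms_core (fun σ τ => ‖deriv (VV L (kap G)) ((σ : ℂ) + (τ : ℂ) * I)‖ ^ 2)
    (fun γ : ℝ => if γ = 0 then 0 else (mm γ : ℝ) ^ 2 / γ ^ 2)
    {γ : ℝ | γ ≠ 0 ∧ G ((γ : ℂ) * I) = 0} K (fun σ τ => sq_nonneg _) ?_ ?_ ?_ hC6' ?_ hK3 ?_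
  · intro γ
    show 0 ≤ if γ = 0 then 0 else (mm γ : ℝ) ^ 2 / γ ^ 2
    split_ifs <;> positivity
  · intro γ hγ
    show (if γ = 0 then 0 else (mm γ : ℝ) ^ 2 / γ ^ 2) = 0
    split_ifs with h
    · rfl
    · have hm : mm γ = 0 := by
        by_contra hne
        exact hγ ⟨h, hmm.zero h hne⟩
      rw [hm]
      simp
  · intro R
    refine (hmm.fin hGc hF.zero R).subset ?_
    rintro γ ⟨h1, h2⟩
    exact ⟨h2, h1.2⟩
  · rintro γ ⟨hγ, hG0⟩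
    obtain ⟨g, hg, hg0, hG⟩ := hmm γ hγ
    obtain ⟨ε0, hε0, hw⟩ := hK2 γ hγ (mm γ) g hg hg0 hG
    have hγ0 : 0 < |γ| := abs_pos.2 hγ
    refine ⟨min ε0 (|γ| / 2), by positivity, fun ε h1 h2 => ?_⟩
    have h3 := window_V hF hL γ hγ (mm γ) ε h1 (h2.trans (min_le_right _ _))
      (hw ε h1 (h2.trans (min_le_left _ _)))
    show Tendsto _ _ (𝓝 (Real.pi * if γ = 0 then 0 else (mm γ : ℝ) ^ 2 / γ ^ 2))
    rw [if_neg hγ]
    exact h3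
  · intro S hS hSZ
    obtain ⟨σ0, C, h0, hC, hb⟩ := hK4 S hS (fun y hy h => by
      by_cases hy0 : y = 0
      · apply hF.zero
        rw [hy0, Complex.ofReal_zero, zero_mul] at h
        exact h
      · exact hSZ y hy ⟨hy0, h⟩)
    refine ⟨σ0, C ^ 2, h0, sq_nonneg C, fun σ h1 h2 y hy => ?_⟩
    exact pow_le_pow_left₀ (norm_nonneg _) (hb σ h1 h2 y hy) 2

end Pool.Agent.Helper8.CR
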