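import Pool.Agent.Helper8.CR.K5
import Pool.Agent.Helper76.CR.K2

/-!
CR-K5b: the windows for `V'`.
-/

set_option autoImplicit false

namespace Pool.Agent.Helper16.CR

open Complex Filter Topology MeasureTheory Set Metric
open Pool.Agent.Helper13.Bsd Pool.Agent.Helper7.GW Pool.Agent.Helper58.BSD Pool.Agent.Helper29.MS

variable {v : ℝ → ℝ} {G : ℂ → ℂ} {A a η B c : ℝ} {k : ℕ}

/-- K5b. one zero: small windows, for `V'` -/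
theorem window_V (hF : Frame v G A a η B c k) {L : ℂ → ℂ} (hL : Branch v G a L) (γ : ℝ) (hγ : γ ≠ 0) (m : ℕ)
    (g : ℂ → ℂ) (hg : AnalyticAt ℂ g (γ * I)) (hg0 : g (γ * I) ≠ 0)
    (hG : ∀ᶠ w in 𝓝 (γ * I : ℂ), G w = (w - γ * I) ^ m * g w) :
    ∃ ε0 : ℝ, 0 < ε0 ∧ ∀ ε : ℝ, 0 < ε → ε ≤ ε0 →
      Tendsto (fun σ : ℝ => σ * ∫ τ in Icc (γ - ε) (γ + ε),
        ‖deriv (VV L (kap G)) ((σ : ℂ) + (τ : ℂ) * I)‖ ^ 2) (𝓝[>] 0)
        (𝓝 (Real.pi * ((m : ℝ) ^ 2 / γ ^ 2))) := by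
  obtain ⟨ε0, hε0, hw⟩ := window hF hL γ hγ m g hg hg0 hG
  have hγ0 : 0 < |γ| := abs_pos.2 hγ
  refine ⟨min ε0 (|γ| / 2), by positivity, fun ε h1 h2 => ?_⟩
  exact Pool.Agent.Helper8.CR.window_V hF hL γ hγ m ε h1 (h2.trans (min_le_right _ _))
    (hw ε h1 (h2.trans (min_le_left _ _)))

end Pool.Agent.Helper16.CR
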