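import Mathlib

/-!
CR-K5, abstract part: `σ ∫ Φ σ` for a family of nonnegative functions with point masses `π w γ` at the points of a
locally finite set, uniformly small tails and bounded on compact sets without these points.
-/

set_option autoImplicit false

namespace Pool.Agent.Helper8.CR

open Filter Topology MeasureTheory Set

/-- small `ε` for which the windows around the points of `T` are disjoint and good -/
theorem exists_eps (T : Finset ℝ) (P : ℝ → ℝ → Prop)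
    (hP : ∀ γ ∈ T, ∃ ε0 : ℝ, 0 < ε0 ∧ ∀ ε : ℝ, 0 < ε → ε ≤ ε0 → P γ ε) :
    ∃ ε : ℝ, 0 < ε ∧ (∀ γ ∈ T, P γ ε) ∧ ∀ γ ∈ T, ∀ γ' ∈ T, γ ≠ γ' → 2 * ε < |γ - γ'| := by
  have h1 : ∀ᶠ ε : ℝ in 𝓝[>] 0, ∀ γ ∈ T, P γ ε := by
    rw [eventually_all_finset]
    intro γ hγ
    obtain ⟨ε0, h0, h⟩ := hP γ hγ
    filter_upwards [Ioc_mem_nhdsGT h0] with ε hε
    exact h ε hε.1 hε.2
  have h2 : ∀ᶠ ε : ℝ in 𝓝[>] 0, ∀ γ ∈ T, ∀ γ' ∈ T, γ ≠ γ' → 2 * ε < |γ - γ'| := by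
    rw [eventually_all_finset]
    intro γ hγ
    rw [eventually_all_finset]
    intro γ' hγ'
    by_cases hne : γ = γ'
    · exact Eventually.of_forall fun ε h => absurd hne h
    · have hpos : 0 < |γ - γ'| / 4 := by
        have : 0 < |γ - γ'| := abs_pos.2 (sub_ne_zero.2 hne)
        linarith
      filter_upwards [Ioc_mem_nhdsGT hpos] with ε hε _
      have := hε.2
      have := hε.1
      linarith
  have h3 : ∀ᶠ ε : ℝ in 𝓝[>] 0, 0 < ε := self_mem_nhdsWithin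
  obtain ⟨ε, ha, hb, hc⟩ := ((h3.and (h1.and h2))).exists
  exact ⟨ε, ha, hb, hc⟩

/-- the windows around the points of `T` -/
def Win (T : Finset ℝ) (ε : ℝ) : Set ℝ := ⋃ γ ∈ T, Icc (γ - ε) (γ + ε)

theorem Win_meas (T : Finset ℝ) (ε : ℝ) : MeasurableSet (Win T ε) :=
  Finset.measurableSet_biUnion _ fun _ _ => measurableSet_Icc

theorem win_tendsto (Φ : ℝ → ℝ → ℝ) (w : ℝ → ℝ) (T : Finset ℝ) (ε : ℝ)
    (hint : ∀ σ, 0 < σ → σ ≤ 1 → Integrable (Φ σ))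
    (hsep : ∀ γ ∈ T, ∀ γ' ∈ T, γ ≠ γ' → 2 * ε < |γ - γ'|)
    (hwin : ∀ γ ∈ T, Tendsto (fun σ : ℝ => σ * ∫ τ in Icc (γ - ε) (γ + ε), Φ σ τ) (𝓝[>] 0)
      (𝓝 (Real.pi * w γ))) :
    Tendsto (fun σ : ℝ => σ * ∫ τ in Win T ε, Φ σ τ) (𝓝[>] 0) (𝓝 (Real.pi * ∑ γ ∈ T, w γ)) := by
  have h1 : Tendsto (fun σ : ℝ => ∑ γ ∈ T, σ * ∫ τ in Icc (γ - ε) (γ + ε), Φ σ τ) (𝓝[>] 0)
      (𝓝 (∑ γ ∈ T, Real.pi * w γ)) := tendsto_finsetSum _ hwin
  rw [Finset.mul_sum]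
  refine h1.congr' ?_
  filter_upwards [Ioc_mem_nhdsGT one_pos] with σ hσ
  rw [Win, integral_biUnion_finset T (fun _ _ => measurableSet_Icc) ?_
    (fun γ _ => (hint σ hσ.1 hσ.2).integrableOn), Finset.mul_sum]
  intro γ hγ γ' hγ' hne
  rw [Function.onFun, Set.disjoint_left]
  intro x hx hx'
  have h2 := hsep γ hγ γ' hγ' hne
  rw [mem_Icc] at hx hx'
  rcases abs_cases (γ - γ') with h | h <;> linarith [h.1, hx.1, hx.2, hx'.1, hx'.2]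

theorem ms_core (Φ : ℝ → ℝ → ℝ) (w : ℝ → ℝ) (Zs : Set ℝ) (K : ℝ)
    (hΦ0 : ∀ σ τ, 0 ≤ Φ σ τ) (hw0 : ∀ γ, 0 ≤ w γ) (hwZ : ∀ γ, γ ∉ Zs → w γ = 0)
    (hfin : ∀ R : ℝ, (Zs ∩ Icc (-R) R).Finite)
    (hint : ∀ σ, 0 < σ → σ ≤ 1 → Integrable (Φ σ) ∧ ∫ τ, Φ σ τ ≤ K / σ)
    (hwin : ∀ γ ∈ Zs, ∃ ε0 : ℝ, 0 < ε0 ∧ ∀ ε : ℝ, 0 < ε → ε ≤ ε0 →
      Tendsto (fun σ : ℝ => σ * ∫ τ in Icc (γ - ε) (γ + ε), Φ σ τ) (𝓝[>] 0)
        (𝓝 (Real.pi * w γ)))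
    (htail : ∀ e : ℝ, 0 < e → ∃ R : ℝ, 0 < R ∧ ∀ σ : ℝ, 0 < σ → σ ≤ 1 →
      ∫ τ in {τ : ℝ | R < |τ|}, Φ σ τ ≤ e / σ)
    (hmid : ∀ S : Set ℝ, IsCompact S → (∀ y ∈ S, y ∉ Zs) → ∃ σ0 C : ℝ, 0 < σ0 ∧ 0 ≤ C ∧
      ∀ σ : ℝ, 0 < σ → σ ≤ σ0 → ∀ y ∈ S, Φ σ y ≤ C) :
    Summable w ∧ Tendsto (fun σ => σ * ∫ τ, Φ σ τ) (𝓝[>] 0) (𝓝 (Real.pi * ∑' γ, w γ)) := by
  classical
  have hpi := Real.pi_pos
  have hint' : ∀ σ, 0 < σ → σ ≤ 1 → Integrable (Φ σ) := fun σ h1 h2 => (hint σ h1 h2).1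
  -- finite sums
  have hsumle : ∀ T : Finset ℝ, (∀ γ ∈ T, γ ∈ Zs) → ∃ ε : ℝ, 0 < ε ∧
      Tendsto (fun σ : ℝ => σ * ∫ τ in Win T ε, Φ σ τ) (𝓝[>] 0)
        (𝓝 (Real.pi * ∑ γ ∈ T, w γ)) := by
    intro T hT
    obtain ⟨ε, hε, h1, h2⟩ := exists_eps T
      (fun γ ε => Tendsto (fun σ : ℝ => σ * ∫ τ in Icc (γ - ε) (γ + ε), Φ σ τ) (𝓝[>] 0)
        (𝓝 (Real.pi * w γ))) (fun γ hγ => hwin γ (hT γ hγ))
    exact ⟨ε, hε, win_tendsto Φ w T ε hint' h2 h1⟩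
  have hbd : ∀ T : Finset ℝ, ∑ γ ∈ T, w γ ≤ K / Real.pi := by
    intro T
    have e1 : ∑ γ ∈ T, w γ = ∑ γ ∈ T.filter (· ∈ Zs), w γ := by
      rw [Finset.sum_filter]
      refine Finset.sum_congr rfl fun γ _ => ?_
      split_ifs with h
      · rfl
      · exact hwZ γ h
    rw [e1]
    obtain ⟨ε, hε, h1⟩ := hsumle (T.filter (· ∈ Zs)) fun γ hγ => (Finset.mem_filter.1 hγ).2
    rw [le_div_iff₀ hpi, mul_comm]
    refine le_of_tendsto h1 ?_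
    filter_upwards [Ioc_mem_nhdsGT one_pos] with σ hσ
    have h2 := (hint σ hσ.1 hσ.2)
    have h3 : ∫ τ in Win (T.filter (· ∈ Zs)) ε, Φ σ τ ≤ ∫ τ, Φ σ τ :=
      setIntegral_le_integral h2.1 (Eventually.of_forall fun τ => hΦ0 σ τ)
    have h4 := h3.trans h2.2
    rw [le_div_iff₀ hσ.1] at h4
    linarith [mul_comm σ (∫ τ in Win (T.filter (· ∈ Zs)) ε, Φ σ τ)]
  have hsum : Summable w := summable_of_sum_le hw0 hbd
  refine ⟨hsum, ?_⟩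
  rw [Metric.tendsto_nhds]
  intro e he
  set S' : ℝ := ∑' γ, w γ with hS'
  set e1 : ℝ := e / 8 with he1
  have he1p : 0 < e1 := by positivity
  obtain ⟨R, hR, htl⟩ := htail e1 he1p
  have h1 := (Metric.tendsto_nhds.1 hsum.hasSum (e1 / Real.pi) (by positivity))
  obtain ⟨s, hs⟩ := eventually_atTop.1 h1
  set R' : ℝ := R + ∑ x ∈ s, |x| with hR'
  have hRR : R ≤ R' := by
    rw [hR']
    have : 0 ≤ ∑ x ∈ s, |x| := Finset.sum_nonneg fun x _ => abs_nonneg x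
    linarith
  have hR0 : 0 < R' := hR.trans_le hRR
  set T : Finset ℝ := (hfin R').toFinset with hT
  have hTZ : ∀ γ ∈ T, γ ∈ Zs := fun γ hγ => ((hfin R').mem_toFinset.1 hγ).1
  have hTs : ∑ γ ∈ T, w γ = ∑ γ ∈ T ∪ s, w γ := by
    refine Finset.sum_subset Finset.subset_union_left fun x hx hxT => ?_
    by_contra hne
    apply hxT
    rw [hT, Set.Finite.mem_toFinset]
    have hxZ : x ∈ Zs := by
      by_contra h
      exact hne (hwZ x h)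
    refine ⟨hxZ, ?_⟩
    rcases Finset.mem_union.1 hx with h | h
    · exact absurd h hxT
    · have h2 : |x| ≤ ∑ y ∈ s, |y| :=
        Finset.single_le_sum (f := fun y : ℝ => |y|) (fun y _ => abs_nonneg y) h
      have h3 : |x| ≤ R' := by linarith
      exact ⟨(abs_le.1 h3).1, (abs_le.1 h3).2⟩
  have hTS : |∑ γ ∈ T, w γ - S'| < e1 / Real.pi := by
    rw [hTs]
    have := hs (T ∪ s) Finset.subset_union_right
    rwa [Real.dist_eq] at this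
  obtain ⟨ε, hε, hlim⟩ := hsumle T hTZ
  set S : Set ℝ := Icc (-R') R' \ ⋃ γ ∈ T, Ioo (γ - ε) (γ + ε) with hSdef
  have hScomp : IsCompact S :=
    isCompact_Icc.diff (isOpen_biUnion fun _ _ => isOpen_Ioo)
  have hSZ : ∀ y ∈ S, y ∉ Zs := by
    intro y hy hyZ
    apply hy.2
    have hyT : y ∈ T := (hfin R').mem_toFinset.2 ⟨hyZ, hy.1⟩
    exact mem_biUnion (show y ∈ (T : Set ℝ) from hyT) ⟨by linarith, by linarith⟩
  obtain ⟨σ0, C, hσ0, hC, hCb⟩ := hmid S hScomp hSZ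
  -- the bound on the complement of the windows
  have hcompl : ∀ σ, 0 < σ → σ ≤ 1 → σ ≤ σ0 →
      ∫ τ in (Win T ε)ᶜ, Φ σ τ ≤ C * (2 * R') + e1 / σ := by
    intro σ h0 h1 h2
    have hi := hint' σ h0 h1
    have hsub : (Win T ε)ᶜ ⊆ S ∪ {τ : ℝ | R < |τ|} := by
      intro τ hτ
      by_cases h : |τ| ≤ R'
      · left
        refine ⟨⟨(abs_le.1 h).1, (abs_le.1 h).2⟩, fun hm => hτ ?_⟩
        obtain ⟨γ, hγ, hγ'⟩ := mem_iUnion₂.1 hm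
        exact mem_iUnion₂.2 ⟨γ, hγ, Ioo_subset_Icc_self hγ'⟩
      · right
        push Not at h
        exact lt_of_le_of_lt hRR h
    have h3 : ∫ τ in (Win T ε)ᶜ, Φ σ τ ≤ ∫ τ in S ∪ {τ : ℝ | R < |τ|}, Φ σ τ :=
      setIntegral_mono_set hi.integrableOn (Eventually.of_forall fun τ => hΦ0 σ τ)
        hsub.eventuallyLE
    have hmeasS : MeasurableSet S := hScomp.isClosed.measurableSet
    have hmeasT : MeasurableSet {τ : ℝ | R < |τ|} := measurableSet_lt measurable_const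
      (continuous_abs.measurable)
    have h4 : ∫ τ in S ∪ {τ : ℝ | R < |τ|}, Φ σ τ ≤
        (∫ τ in S, Φ σ τ) + ∫ τ in {τ : ℝ | R < |τ|}, Φ σ τ := by
      have e1' : S ∪ {τ : ℝ | R < |τ|} = S ∪ ({τ : ℝ | R < |τ|} \ S) := by
        rw [union_sdiff_self]
      rw [e1', setIntegral_union disjoint_sdiff_right (hmeasT.diff hmeasS) hi.integrableOn
        hi.integrableOn]
      have : ∫ τ in {τ : ℝ | R < |τ|} \ S, Φ σ τ ≤ ∫ τ in {τ : ℝ | R < |τ|}, Φ σ τ :=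
        setIntegral_mono_set hi.integrableOn (Eventually.of_forall fun τ => hΦ0 σ τ)
          sdiff_subset.eventuallyLE
      linarith
    have h5 : ∫ τ in S, Φ σ τ ≤ C * (2 * R') := by
      have hv : volume S ≤ ENNReal.ofReal (2 * R') := by
        refine (measure_mono sdiff_subset).trans ?_
        rw [Real.volume_Icc]
        apply ENNReal.ofReal_le_ofReal
        linarith
      have hvf : volume S < ⊤ := hv.trans_lt ENNReal.ofReal_lt_top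
      calc ∫ τ in S, Φ σ τ ≤ ∫ τ in S, C :=
            setIntegral_mono_on hi.integrableOn (integrableOn_const hvf.ne) hmeasS
              fun τ hτ => hCb σ h0 h2 τ hτ
        _ = (volume S).toReal * C := by
            rw [setIntegral_const, smul_eq_mul, Measure.real]
        _ ≤ (2 * R') * C := by
            refine mul_le_mul_of_nonneg_right ?_ hC
            exact ENNReal.toReal_le_of_le_ofReal (by positivity) hv
        _ = C * (2 * R') := by ring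
    have h6 := htl σ h0 h1
    linarith
  have hsm : ∀ᶠ σ : ℝ in 𝓝[>] 0, σ * (C * (2 * R')) < e1 := by
    have h2 : Tendsto (fun σ : ℝ => σ * (C * (2 * R'))) (𝓝[>] 0) (𝓝 (0 * (C * (2 * R')))) :=
      (tendsto_id.mono_left nhdsWithin_le_nhds).mul_const _
    rw [zero_mul] at h2
    exact h2.eventually (gt_mem_nhds he1p)
  filter_upwards [Metric.tendsto_nhds.1 hlim e1 he1p, hsm, Ioc_mem_nhdsGT one_pos,
    Ioc_mem_nhdsGT hσ0] with σ g1 g2 g3 g4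
  rw [Real.dist_eq] at g1 ⊢
  have hi := hint' σ g3.1 g3.2
  have h2 : ∫ τ, Φ σ τ = (∫ τ in Win T ε, Φ σ τ) + ∫ τ in (Win T ε)ᶜ, Φ σ τ :=
    (integral_add_compl (Win_meas T ε) hi).symm
  have h3 := hcompl σ g3.1 g3.2 g4.2
  have h4 : 0 ≤ ∫ τ in (Win T ε)ᶜ, Φ σ τ := integral_nonneg fun τ => hΦ0 σ τ
  have h5 : σ * ∫ τ in (Win T ε)ᶜ, Φ σ τ ≤ 2 * e1 := by
    have h6 := mul_le_mul_of_nonneg_left h3 g3.1.le
    have h7 : σ * (C * (2 * R') + e1 / σ) = σ * (C * (2 * R')) + e1 := by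
      have := g3.1.ne'
      field_simp
    linarith
  have h6 : 0 ≤ σ * ∫ τ in (Win T ε)ᶜ, Φ σ τ := mul_nonneg g3.1.le h4
  have h7 : |Real.pi * ∑ γ ∈ T, w γ - Real.pi * S'| < e1 := by
    rw [← mul_sub, abs_mul, abs_of_pos hpi]
    have := mul_lt_mul_of_pos_left hTS hpi
    rwa [mul_div_cancel₀ _ hpi.ne'] at this
  rw [h2, mul_add]
  rw [abs_lt] at g1 h7 ⊢
  constructor <;> linarith [g1.1, g1.2, h7.1, h7.2]

/-- the error `r` does not matter -/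
theorem cross {a b r : ℝ → ℝ} {A : ℝ} (ha : Tendsto a (𝓝[>] 0) (𝓝 A))
    (hr : Tendsto r (𝓝[>] 0) (𝓝 0))
    (h : ∀ᶠ σ in 𝓝[>] (0 : ℝ), 0 ≤ a σ ∧ 0 ≤ b σ ∧ 0 ≤ r σ ∧ ∀ η : ℝ, 0 < η →
      b σ ≤ (1 + η) * a σ + (1 + 1 / η) * r σ ∧ a σ ≤ (1 + η) * b σ + (1 + 1 / η) * r σ) :
    Tendsto b (𝓝[>] 0) (𝓝 A) := by
  rw [Metric.tendsto_nhds]
  intro e he
  set M : ℝ := 2 * (|A| + 1) + 2 with hM
  have hM0 : 0 < M := by positivity
  set η : ℝ := e / (4 * M) with hη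
  have hη0 : 0 < η := by positivity
  have hηM : η * M = e / 4 := by
    rw [hη]
    field_simp
  set Q : ℝ := 1 + 1 / η with hQ
  have hQ0 : 0 < Q := by positivity
  have h1 := Metric.tendsto_nhds.1 ha (min (e / 4) 1) (by positivity)
  have h2 := Metric.tendsto_nhds.1 hr (min (e / (4 * Q)) (1 / 2)) (by positivity)
  filter_upwards [h1, h2, h] with σ g1 g2 g3
  rw [Real.dist_eq] at g1 g2 ⊢
  obtain ⟨ha0, hb0, hr0, hη'⟩ := g3
  rw [sub_zero, abs_of_nonneg hr0] at g2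
  obtain ⟨k1, k2⟩ := hη' 1 one_pos
  obtain ⟨k3, k4⟩ := hη' η hη0
  have g4 : |a σ - A| < e / 4 := g1.trans_le (min_le_left _ _)
  have g5 : |a σ - A| < 1 := g1.trans_le (min_le_right _ _)
  have g6 : r σ < e / (4 * Q) := g2.trans_le (min_le_left _ _)
  have g7 : r σ < 1 / 2 := g2.trans_le (min_le_right _ _)
  have g8 : a σ ≤ |A| + 1 := by
    have := (abs_lt.1 g5).2
    have := le_abs_self A
    linarith
  have g9 : b σ ≤ M := by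
    have : (1 : ℝ) + 1 / 1 = 2 := by norm_num
    rw [this] at k1
    rw [hM]
    nlinarith
  have g10 : Q * r σ < e / 4 := by
    have := mul_lt_mul_of_pos_left g6 hQ0
    have e1 : Q * (e / (4 * Q)) = e / 4 := by
      field_simp
    rwa [e1] at this
  have g11 : η * a σ ≤ e / 4 := by
    rw [← hηM]
    refine mul_le_mul_of_nonneg_left ?_ hη0.le
    rw [hM]
    have := abs_nonneg A
    linarith
  have g12 : η * b σ ≤ e / 4 := by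
    rw [← hηM]
    exact mul_le_mul_of_nonneg_left g9 hη0.le
  have g13 := abs_lt.1 g4
  rw [abs_lt]
  constructor <;> nlinarith [g13.1, g13.2]

theorem sq_split (x y : ℂ) (η : ℝ) (hη : 0 < η) :
    ‖x + y‖ ^ 2 ≤ (1 + η) * ‖x‖ ^ 2 + (1 + 1 / η) * ‖y‖ ^ 2 := by
  have h1 : ‖x + y‖ ^ 2 ≤ (‖x‖ + ‖y‖) ^ 2 :=
    pow_le_pow_left₀ (norm_nonneg _) (norm_add_le x y) 2
  have h2 : 2 * (‖x‖ * ‖y‖) ≤ η * ‖x‖ ^ 2 + 1 / η * ‖y‖ ^ 2 := by
    have h3 : 0 ≤ (η * ‖x‖ - ‖y‖) ^ 2 / η := div_nonneg (sq_nonneg _) hη.le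
    have h4 : (η * ‖x‖ - ‖y‖) ^ 2 / η = η * ‖x‖ ^ 2 - 2 * (‖x‖ * ‖y‖) + 1 / η * ‖y‖ ^ 2 := by
      field_simp
      ring
    linarith
  nlinarith

end Pool.Agent.Helper8.CR
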